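import Pool.Agent.Helper60_SEP.Stmts2
import Pool.Agent.Helper80_RS.Glue

/-! KAN: a vertex of degree `δ` in the smaller side. -/

set_option autoImplicit false

open SimpleGraph

namespace Pool.Agent.SEP60.H11

open Pool.Agent.RS80 Pool.Agent.RS81 Pool.Agent.SEP60

/-- two proper colourings of a connected graph -/
theorem two_col {V : Type} {B : SimpleGraph V} (hB : B.Connected) {κ κ' : V → Bool}
    (h1 : ∀ x y, B.Adj x y → κ x ≠ κ y) (h2 : ∀ x y, B.Adj x y → κ' x ≠ κ' y) (u : V) (v : V) :
    (κ v = κ u ↔ κ' v = κ' u) := by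
  obtain ⟨w⟩ := hB.preconnected v u
  induction w with
  | nil => simp
  | @cons a b c hab _ ih =>
    have e1 := h1 _ _ hab
    have e2 := h2 _ _ hab
    have : ∀ p q r p' q' r' : Bool, p ≠ q → p' ≠ q' → (q = r ↔ q' = r') →
      (p = r ↔ p' = r') := by decide
    exact this _ _ _ _ _ _ e1 e2 ih

theorem ncard_range_inl (m N : ℕ) :
    (Set.range (Sum.inl : Fin m → Fin m ⊕ Fin N)).ncard = m := by
  rw [← Set.image_univ, Set.ncard_image_of_injective _ Sum.inl_injective, Set.ncard_univ,
    Nat.card_eq_fintype_card, Fintype.card_fin]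

theorem adj_isLeft {m N : ℕ} {a b : Fin m ⊕ Fin N}
    (h : (completeBipartiteGraph (Fin m) (Fin N)).Adj a b) : a.isLeft ≠ b.isLeft := by
  cases a <;> cases b <;> simp_all [completeBipartiteGraph]

/-- no copy in a complete bipartite graph with a small side -/
theorem free_small {V : Type} [Finite V] {B : SimpleGraph V} (hB : B.Connected) {κ : V → Bool}
    (h1 : ∀ x y, B.Adj x y → κ x ≠ κ y) (u : V) (m N : ℕ)
    (hm1 : m < {v | κ v = κ u}.ncard) (hm2 : m < {v | κ v ≠ κ u}.ncard) :
    B.Free (completeBipartiteGraph (Fin m) (Fin N)) := by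
  rintro ⟨f⟩
  have h2 : ∀ x y, B.Adj x y → (f x).isLeft ≠ (f y).isLeft := fun x y hxy =>
    adj_isLeft (f.toHom.map_adj hxy)
  have h3 := fun v => two_col hB h1 (κ' := fun x => (f x).isLeft) h2 u v
  have hle : ({v | (f v).isLeft = true} : Set V).ncard ≤ m := by
    refine le_trans ?_ (ncard_range_inl m N).le
    refine Set.ncard_le_ncard_of_injOn f (fun v hv => ?_) (f.injective.injOn) (Set.toFinite _)
    have hv' : (f v).isLeft = true := hv
    cases hx : f v with
    | inl z => exact ⟨z, rfl⟩
    | inr z =>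
      rw [hx] at hv'
      exact absurd hv' (by simp)
  cases hu : (f u).isLeft with
  | true =>
    have e : {v | κ v = κ u} = {v | (f v).isLeft = true} := by
      ext v
      have := h3 v
      simp only [hu] at this
      exact this
    rw [e] at hm1
    omega
  | false =>
    have e : {v | κ v ≠ κ u} = {v | (f v).isLeft = true} := by
      ext v
      have := h3 v
      simp only [hu] at this
      show ¬ (κ v = κ u) ↔ _
      rw [this]
      simp
    rw [e] at hm2
    omega

theorem bip_conn (m N : ℕ) (hm : 0 < m) (hN : 0 < N) :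
    (completeBipartiteGraph (Fin m) (Fin N)).Connected := by
  haveI : Nonempty (Fin m ⊕ Fin N) := ⟨Sum.inl ⟨0, hm⟩⟩
  have h1 : ∀ (a : Fin m) (b : Fin N),
      (completeBipartiteGraph (Fin m) (Fin N)).Adj (Sum.inl a) (Sum.inr b) := fun a b => by
    simp [completeBipartiteGraph]
  have h2 : ∀ x : Fin m ⊕ Fin N,
      (completeBipartiteGraph (Fin m) (Fin N)).Reachable (Sum.inl ⟨0, hm⟩) x := by
    rintro (a | b)
    · exact (h1 ⟨0, hm⟩ ⟨0, hN⟩).reachable.trans (h1 a ⟨0, hN⟩).symm.reachable
    · exact (h1 ⟨0, hm⟩ b).reachable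
  exact ⟨fun x y => (h2 x).symm.trans (h2 y)⟩

/-- injections between sets -/
theorem exists_inj {α β : Type} [Finite α] [Finite β] (s : Set α) (t : Set β)
    (h : s.ncard ≤ t.ncard) : ∃ f : s → t, Function.Injective f := by
  classical
  haveI := Fintype.ofFinite α
  haveI := Fintype.ofFinite β
  haveI := Fintype.ofFinite s
  haveI := Fintype.ofFinite t
  have h1 : Fintype.card s ≤ Fintype.card t := by
    rw [← Nat.card_eq_fintype_card, ← Nat.card_eq_fintype_card]
    exact h
  obtain ⟨f⟩ := Function.Embedding.nonempty_of_card_le h1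
  exact ⟨f, f.injective⟩

/-- the copy of `B` in the cone -/
theorem cone_copy {V : Type} [Finite V] {B : SimpleGraph V} {κ : V → Bool}
    (h1 : ∀ x y, B.Adj x y → κ x ≠ κ y) (u : V) (m N : ℕ)
    (hm : {v | κ v = κ u}.ncard ≤ m + 1) (hN : {v | κ v ≠ κ u}.ncard ≤ N)
    (T : Set (Fin m ⊕ Fin N)) (hT : T ⊆ Set.range Sum.inr)
    (hTc : T.ncard = (B.neighborSet u).ncard) :
    B ⊑ cone (completeBipartiteGraph (Fin m) (Fin N)) T := by
  classical
  -- the three parts
  set A : Set V := {v | κ v = κ u ∧ v ≠ u} with hA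
  set P : Set V := {v | κ v ≠ κ u ∧ ¬ B.Adj u v} with hP
  have hA1 : A.ncard ≤ (Set.univ : Set (Fin m)).ncard := by
    have e : {v | κ v = κ u} = insert u A := by
      ext v
      simp only [hA, Set.mem_setOf_eq, Set.mem_insert_iff]
      by_cases h : v = u
      · simp [h]
      · simp [h]
    have hu : u ∉ A := fun h => h.2 rfl
    rw [e, Set.ncard_insert_of_notMem hu (Set.toFinite _)] at hm
    rw [Set.ncard_univ, Nat.card_eq_fintype_card, Fintype.card_fin]
    omega
  have hNb : ∀ v, B.Adj u v → κ v ≠ κ u := fun v h => (h1 _ _ h).symm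
  have hTr : T.ncard + (Set.range (Sum.inr : Fin N → Fin m ⊕ Fin N) \ T).ncard = N := by
    rw [add_comm, Set.ncard_sdiff_add_ncard_of_subset hT (Set.toFinite _), ← Set.image_univ,
      Set.ncard_image_of_injective _ Sum.inr_injective, Set.ncard_univ,
      Nat.card_eq_fintype_card, Fintype.card_fin]
  have hP1 : P.ncard ≤ (Set.range (Sum.inr : Fin N → Fin m ⊕ Fin N) \ T).ncard := by
    have e : {v | κ v ≠ κ u} = B.neighborSet u ∪ P := by
      ext v
      simp only [hP, Set.mem_setOf_eq, Set.mem_union, SimpleGraph.mem_neighborSet]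
      constructor
      · intro h
        by_cases h' : B.Adj u v
        · exact Or.inl h'
        · exact Or.inr ⟨h, h'⟩
      · rintro (h | h)
        · exact hNb v h
        · exact h.1
    have hd : Disjoint (B.neighborSet u) P := by
      rw [Set.disjoint_left]
      intro v hv hv'
      exact hv'.2 hv
    rw [e, Set.ncard_union_eq hd (Set.toFinite _) (Set.toFinite _)] at hN
    omega
  obtain ⟨fA, hfA⟩ := exists_inj A Set.univ hA1
  obtain ⟨fT, hfT⟩ := exists_inj (B.neighborSet u) T hTc.ge
  obtain ⟨fP, hfP⟩ := exists_inj P _ hP1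
  -- the map
  let F : V → Option (Fin m ⊕ Fin N) := fun v =>
    if h : v = u then none
    else if h2 : κ v = κ u then some (Sum.inl (fA ⟨v, h2, h⟩).1)
    else if h3 : B.Adj u v then some (fT ⟨v, h3⟩).1
    else some (fP ⟨v, h2, h3⟩).1
  have F0 : F u = none := by simp [F]
  have FA : ∀ v (h : v ∈ A), F v = some (Sum.inl (fA ⟨v, h⟩).1) := fun v h => by
    simp only [F]
    rw [dif_neg h.2, dif_pos h.1]
  have FT : ∀ v (h : B.Adj u v), F v = some (fT ⟨v, h⟩).1 := fun v h => by
    simp only [F]
    rw [dif_neg h.ne', dif_neg (hNb v h), dif_pos h]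
  have FP : ∀ v (h : v ∈ P), F v = some (fP ⟨v, h⟩).1 := fun v h => by
    simp only [F]
    rw [dif_neg (fun e => h.1 (by rw [e])), dif_neg h.1, dif_neg h.2]
  have hcase : ∀ v, v = u ∨ v ∈ A ∨ B.Adj u v ∨ v ∈ P := fun v => by
    by_cases e1 : v = u
    · exact Or.inl e1
    · by_cases e2 : κ v = κ u
      · exact Or.inr (Or.inl ⟨e2, e1⟩)
      · by_cases e3 : B.Adj u v
        · exact Or.inr (Or.inr (Or.inl e3))
        · exact Or.inr (Or.inr (Or.inr ⟨e2, e3⟩))
  have hinr : ∀ v, κ v ≠ κ u → ∃ j, F v = some (Sum.inr j) ∧ (B.Adj u v → Sum.inr j ∈ T) := by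
    intro v hv
    by_cases e3 : B.Adj u v
    · obtain ⟨j, hj⟩ := hT (fT ⟨v, e3⟩).2
      refine ⟨j, ?_, fun _ => ?_⟩
      · rw [FT v e3, hj]
      · rw [hj]
        exact (fT ⟨v, e3⟩).2
    · obtain ⟨j, hj⟩ := (fP ⟨v, hv, e3⟩).2.1
      refine ⟨j, ?_, fun h => absurd h e3⟩
      rw [FP v ⟨hv, e3⟩, hj]
  have hadj : ∀ x y, κ x = κ u → B.Adj x y →
      (cone (completeBipartiteGraph (Fin m) (Fin N)) T).Adj (F x) (F y) := by
    intro x y hx hxy
    have hy : κ y ≠ κ u := by
      rw [← hx]
      exact (h1 _ _ hxy).symm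
    obtain ⟨j, hj, hj'⟩ := hinr y hy
    rw [hj]
    by_cases hxu : x = u
    · subst hxu
      rw [F0]
      exact hj' hxy
    · rw [FA x ⟨hx, hxu⟩]
      show (completeBipartiteGraph (Fin m) (Fin N)).Adj _ _
      simp [completeBipartiteGraph]
  have hinj : Function.Injective F := by
    intro x y hxy
    rcases hcase x with rfl | hx | hx | hx
    · rcases hcase y with rfl | hy | hy | hy
      · rfl
      · rw [F0, FA y hy] at hxy
        exact absurd hxy (by simp)
      · rw [F0, FT y hy] at hxy
        exact absurd hxy (by simp)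
      · rw [F0, FP y hy] at hxy
        exact absurd hxy (by simp)
    · rcases hcase y with rfl | hy | hy | hy
      · rw [F0, FA x hx] at hxy
        exact absurd hxy (by simp)
      · rw [FA x hx, FA y hy] at hxy
        have := hfA (Subtype.ext (Sum.inl_injective (Option.some_injective _ hxy)))
        exact congrArg Subtype.val this
      · obtain ⟨j, hj, -⟩ := hinr y (hNb y hy)
        rw [FA x hx, hj] at hxy
        exact absurd hxy (by simp)
      · obtain ⟨j, hj, -⟩ := hinr y hy.1
        rw [FA x hx, hj] at hxy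
        exact absurd hxy (by simp)
    · rcases hcase y with rfl | hy | hy | hy
      · rw [F0, FT x hx] at hxy
        exact absurd hxy (by simp)
      · obtain ⟨j, hj, -⟩ := hinr x (hNb x hx)
        rw [FA y hy, hj] at hxy
        exact absurd hxy (by simp)
      · rw [FT x hx, FT y hy] at hxy
        have := hfT (Subtype.ext (Option.some_injective _ hxy))
        exact congrArg Subtype.val this
      · rw [FT x hx, FP y hy] at hxy
        have e := Option.some_injective _ hxy
        have h5 := (fP ⟨y, hy⟩).2.2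
        rw [← e] at h5
        exact absurd (fT ⟨x, hx⟩).2 h5
    · rcases hcase y with rfl | hy | hy | hy
      · rw [F0, FP x hx] at hxy
        exact absurd hxy (by simp)
      · obtain ⟨j, hj, -⟩ := hinr x hx.1
        rw [FA y hy, hj] at hxy
        exact absurd hxy (by simp)
      · rw [FT y hy, FP x hx] at hxy
        have e := Option.some_injective _ hxy
        have h5 := (fP ⟨x, hx⟩).2.2
        rw [e] at h5
        exact absurd (fT ⟨y, hy⟩).2 h5
      · rw [FP x hx, FP y hy] at hxy
        have := hfP (Subtype.ext (Option.some_injective _ hxy))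
        exact congrArg Subtype.val this
  refine ⟨⟨⟨F, ?_⟩, hinj⟩⟩
  intro x y hxy
  by_cases hx : κ x = κ u
  · exact hadj x y hx hxy
  · have hy : κ y = κ u := by
      have h5 := h1 _ _ hxy
      have : ∀ a b c : Bool, a ≠ b → a ≠ c → b = c := by decide
      exact this _ _ _ h5 hx
    exact (hadj y x hy hxy.symm).symm

theorem kan : KanStmt := by
  intro V _ B κ u δ hB h1 hδ hle
  obtain ⟨v, huv⟩ := hB.exists_adj u
  obtain ⟨u', hu', hvu'⟩ := hB.exists_adj_ne v u
  have hδ1 : 1 ≤ δ := by
    rw [← hδ]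
    exact (Set.ncard_pos (Set.toFinite _)).2 ⟨v, huv⟩
  have hq : 2 ≤ {v | κ v = κ u}.ncard := by
    have h2 : ({u, u'} : Set V) ⊆ {v | κ v = κ u} := by
      rintro w (rfl | rfl)
      · rfl
      · have e1 := h1 _ _ huv
        have e2 := h1 _ _ hvu'
        have : ∀ a b c : Bool, a ≠ b → b ≠ c → c = a := by decide
        exact this _ _ _ e1 e2
    have h3 := Set.ncard_le_ncard h2 (Set.toFinite _)
    rwa [Set.ncard_pair hu'.symm] at h3
  obtain ⟨m, hm⟩ : ∃ m, {v | κ v = κ u}.ncard = m + 1 :=
    ⟨{v | κ v = κ u}.ncard - 1, by omega⟩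
  set N := max {v | κ v ≠ κ u}.ncard (2 * δ - 1) with hN
  have hN1 : {v | κ v ≠ κ u}.ncard ≤ N := le_max_left _ _
  have hN2 : 2 * δ - 1 ≤ N := le_max_right _ _
  refine ⟨Fin m ⊕ Fin N, inferInstance, completeBipartiteGraph (Fin m) (Fin N),
    fun x => x.isRight, Sum.inr '' {i : Fin N | i.1 < 2 * δ - 1},
    bip_conn m N (by omega) (by omega),
    free_small hB.2.1 h1 u m N (by omega) (by omega), ?_, ?_, ?_, ?_⟩
  · intro x y hxy e
    have h2 := adj_isLeft hxy
    cases x <;> cases y <;> simp_all
  · rintro s ⟨i, -, rfl⟩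
    rfl
  · rw [Set.ncard_image_of_injective _ Sum.inr_injective]
    have e : {i : Fin N | i.1 < 2 * δ - 1} = Set.range (Fin.castLE hN2) := by
      ext i
      constructor
      · intro hi
        exact ⟨⟨i.1, hi⟩, rfl⟩
      · rintro ⟨j, rfl⟩
        exact j.2
    rw [e, ← Set.image_univ, Set.ncard_image_of_injective _ (Fin.castLE_injective hN2),
      Set.ncard_univ, Nat.card_eq_fintype_card, Fintype.card_fin]
  · intro T hT hTc
    refine cone_copy h1 u m N (by omega) hN1 T (hT.trans (Set.image_subset_range _ _)) ?_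
    rw [hTc, hδ]

end Pool.Agent.SEP60.H11
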